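import Pool.Agent.Helper24.AL.St

set_option autoImplicit false

namespace Pool.Agent.Helper77.AL

open Finset Matrix
open scoped ComplexOrder
open Pool.Agent.Helper24.AL
open Pool.Agent.Helper28.SP (SZ SG red cnt W Sym Pos sP wP lam opX StLAM)

theorem hPOSW (h : StLAM) : StPOSW := by
  intro G ι _ _ _ s u j g hpos
  obtain ⟨-, -, -, -, -, -, hpow, -, hps⟩ := h G
  have hM : ((opX s u) ^ j).PosSemidef := (hps ι s u hpos).pow j
  have hent : ∀ x y : G, ((opX s u) ^ j) x y = (cnt s u j (x * y⁻¹) : ℂ) := by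
    intro x y
    rw [hpow ι s u j, Matrix.sum_apply]
    rw [Finset.sum_eq_single (x * y⁻¹)]
    · simp [lam]
    · intro b _ hb
      have : x ≠ b * y := by
        intro hx
        exact hb (by rw [hx]; group)
      simp [lam, this]
    · intro hx
      exact absurd (Finset.mem_univ _) hx
  have h2 := (hM.submatrix ![g, 1]).det_nonneg
  rw [Matrix.det_fin_two] at h2
  simp only [Matrix.submatrix_apply, Matrix.cons_val_zero, Matrix.cons_val_one, hent] at h2
  have h3 : (cnt s u j (1 * g⁻¹) : ℂ) = (cnt s u j (g * 1⁻¹) : ℂ) := by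
    have := hM.1.apply g 1
    rw [hent, hent] at this
    simpa using this
  rw [h3] at h2
  simp only [mul_inv_cancel, inv_one, mul_one] at h2
  have h4 : (0 : ℝ) ≤ (cnt s u j 1 : ℝ) * cnt s u j 1 - (cnt s u j g : ℝ) * cnt s u j g := by
    exact_mod_cast h2
  have h5 : cnt s u j g * cnt s u j g ≤ cnt s u j 1 * cnt s u j 1 := by
    have : (cnt s u j g : ℝ) * cnt s u j g ≤ (cnt s u j 1 : ℝ) * cnt s u j 1 := by linarith
    exact_mod_cast this
  exact Nat.mul_self_le_mul_self_iff.1 h5

end Pool.Agent.Helper77.AL
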